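import Pool.Agent.H85R2.PIDefs

/-! Capelli values: functoriality, vanishing for small matrices, non-vanishing on spanning sets. -/

set_option autoImplicit false

namespace Pool.Agent.H317R2.PI

open Matrix Pool.Agent.H85R2.PI

theorem cap_map {R S : Type*} [Ring R] [Ring S] (φ : R →+* S) (N : ℕ) (x y y' : Fin N → R) :
    φ (cap N x y y') = cap N (fun i => φ (x i)) (fun i => φ (y i)) (fun i => φ (y' i)) := by
  unfold cap
  rw [map_sum]
  refine Finset.sum_congr rfl fun σ _ => ?_
  rw [map_zsmul, map_list_prod, List.map_ofFn]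
  congr 3
  funext k
  simp only [Function.comp_apply, map_mul]

section
variable {K A : Type*} [CommRing K] [Ring A] [Algebra K A]

/-- `cap` as an alternating map of the middle variables -/
noncomputable def capX (K : Type*) {A : Type*} [CommRing K] [Ring A] [Algebra K A] (N : ℕ)
    (y y' : Fin N → A) : A [⋀^Fin N]→ₗ[K] A :=
  MultilinearMap.alternatization ((MultilinearMap.mkPiAlgebraFin K N A).compLinearMap
    (fun k => (LinearMap.mulRight K (y' k)).comp (LinearMap.mulLeft K (y k))))

theorem capX_apply (N : ℕ) (x y y' : Fin N → A) : capX K N y y' x = cap N x y y' := by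
  unfold capX cap
  rw [MultilinearMap.alternatization_apply]
  refine Finset.sum_congr rfl fun σ _ => ?_
  rfl

/-- `cap` as a multilinear map of the left variables -/
noncomputable def capY (K : Type*) {A : Type*} [CommRing K] [Ring A] [Algebra K A] (N : ℕ)
    (x y' : Fin N → A) : MultilinearMap K (fun _ : Fin N => A) A :=
  ∑ σ : Equiv.Perm (Fin N), (Equiv.Perm.sign σ : ℤ) •
    (MultilinearMap.mkPiAlgebraFin K N A).compLinearMap
      (fun k => LinearMap.mulRight K (x (σ k) * y' k))

theorem capY_apply (N : ℕ) (x y y' : Fin N → A) : capY K N x y' y = cap N x y y' := by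
  unfold capY cap
  rw [MultilinearMap.sum_apply]
  refine Finset.sum_congr rfl fun σ _ => ?_
  rw [MultilinearMap.smul_apply, MultilinearMap.compLinearMap_apply,
    MultilinearMap.mkPiAlgebraFin_apply]
  congr 3
  funext k
  rw [LinearMap.mulRight_apply, mul_assoc]

/-- `cap` as a multilinear map of the right variables -/
noncomputable def capZ (K : Type*) {A : Type*} [CommRing K] [Ring A] [Algebra K A] (N : ℕ)
    (x y : Fin N → A) : MultilinearMap K (fun _ : Fin N => A) A :=
  ∑ σ : Equiv.Perm (Fin N), (Equiv.Perm.sign σ : ℤ) •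
    (MultilinearMap.mkPiAlgebraFin K N A).compLinearMap
      (fun k => LinearMap.mulLeft K (y k * x (σ k)))

theorem capZ_apply (N : ℕ) (x y y' : Fin N → A) : capZ K N x y y' = cap N x y y' := by
  unfold capZ cap
  rw [MultilinearMap.sum_apply]
  refine Finset.sum_congr rfl fun σ _ => ?_
  rw [MultilinearMap.smul_apply, MultilinearMap.compLinearMap_apply,
    MultilinearMap.mkPiAlgebraFin_apply]
  congr 3

theorem ml_zero {N : ℕ} (S : Set A) (hS : Submodule.span K S = ⊤)
    (f : MultilinearMap K (fun _ : Fin N => A) A) (h : ∀ x : Fin N → A, (∀ i, x i ∈ S) → f x = 0)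
    (x : Fin N → A) : f x = 0 := by
  have key : f = 0 := by
    refine MultilinearMap.ext_of_span_eq_top (g := fun _ (s : S) => (s : A)) (fun i => ?_)
      (fun j => ?_)
    · rw [Subtype.range_coe]; exact hS
    · rw [MultilinearMap.zero_apply]
      exact h _ fun i => (j i).2
  rw [key, MultilinearMap.zero_apply]

theorem cap_all {N : ℕ} (S : Set A) (hS : Submodule.span K S = ⊤)
    (h : ∀ x y y' : Fin N → A, (∀ i, x i ∈ S) → (∀ i, y i ∈ S) → (∀ i, y' i ∈ S) →
      cap N x y y' = 0) (x y y' : Fin N → A) : cap N x y y' = 0 := by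
  have h1 : ∀ x y y' : Fin N → A, (∀ i, y i ∈ S) → (∀ i, y' i ∈ S) → cap N x y y' = 0 := by
    intro x y y' hy hy'
    rw [← capX_apply (K := K)]
    exact ml_zero S hS (capX K N y y').toMultilinearMap (fun x hx => by
      change capX K N y y' x = 0
      rw [capX_apply]; exact h x y y' hx hy hy') x
  have h2 : ∀ x y y' : Fin N → A, (∀ i, y' i ∈ S) → cap N x y y' = 0 := by
    intro x y y' hy'
    rw [← capY_apply (K := K)]
    exact ml_zero S hS _ (fun y hy => by rw [capY_apply]; exact h1 x y y' hy hy') y
  rw [← capZ_apply (K := K)]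
  exact ml_zero S hS _ (fun y' hy' => by rw [capZ_apply]; exact h2 x y y' hy') y'

end

theorem cap_zero {K : Type*} [Field K] (e N : ℕ) (h : e * e < N)
    (x y y' : Fin N → Matrix (Fin e) (Fin e) K) : cap N x y y' = 0 := by
  rw [← capX_apply (K := K)]
  apply AlternatingMap.map_linearDependent
  intro hli
  have h1 := hli.fintype_card_le_finrank
  rw [Module.finrank_matrix] at h1
  simp at h1
  omega

theorem cap_ne_of_span {K : Type*} [Field K] (d : ℕ) (hd : 0 < d)
    (S : Set (Matrix (Fin d) (Fin d) K)) (hS : Submodule.span K S = ⊤) :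
    ∃ x y y' : Fin (d * d) → Matrix (Fin d) (Fin d) K,
      (∀ i, x i ∈ S) ∧ (∀ i, y i ∈ S) ∧ (∀ i, y' i ∈ S) ∧ cap (d * d) x y y' ≠ 0 := by
  by_contra hcon
  push Not at hcon
  have hall := cap_all (K := K) (N := d * d) S hS (fun x y y' h1 h2 h3 => hcon x y y' h1 h2 h3)
  let o : Fin d := ⟨0, hd⟩
  let q : Fin (d * d) → Fin d × Fin d := fun k => finProdFinEquiv.symm k
  let e : Matrix (Fin d) (Fin d) K := single o o 1
  have h0 := hall (fun k => single (q k).1 (q k).2 1) (fun k => single o (q k).1 1)
    (fun k => single (q k).2 o 1)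
  have hfac : ∀ (σ : Equiv.Perm (Fin (d * d))) (k : Fin (d * d)),
      single o (q k).1 (1 : K) * single (q (σ k)).1 (q (σ k)).2 1 * single (q k).2 o 1 =
        if σ k = k then e else 0 := by
    intro σ k
    by_cases hk : σ k = k
    · rw [if_pos hk, hk, single_mul_single_same, single_mul_single_same]
      simp only [mul_one, e]
    · rw [if_neg hk]
      have hne : q (σ k) ≠ q k := fun h' => hk (finProdFinEquiv.symm.injective h')
      by_cases h1 : (q k).1 = (q (σ k)).1
      · have h2 : (q (σ k)).2 ≠ (q k).2 := fun h' => hne (Prod.ext h1.symm h')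
        rw [h1, single_mul_single_same, single_mul_single_of_ne (h := h2)]
      · rw [single_mul_single_of_ne (h := h1), zero_mul]
  have hcap : cap (d * d) (fun k => single (q k).1 (q k).2 (1 : K)) (fun k => single o (q k).1 1)
      (fun k => single (q k).2 o 1) = e := by
    unfold cap
    rw [Finset.sum_eq_single (1 : Equiv.Perm (Fin (d * d)))]
    · rw [Equiv.Perm.sign_one]
      simp only [Units.val_one, one_smul]
      have : (List.ofFn fun k : Fin (d * d) => single o (q k).1 (1 : K) *
          single (q ((1 : Equiv.Perm (Fin (d * d))) k)).1 (q ((1 : Equiv.Perm (Fin (d * d))) k)).2 1 *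
          single (q k).2 o 1) = List.ofFn fun _ : Fin (d * d) => e := by
        congr 1
        funext k
        rw [hfac]
        simp
      rw [this, List.ofFn_const, List.prod_replicate]
      have he : IsIdempotentElem e := by
        change e * e = e
        simp only [e, single_mul_single_same, mul_one]
      obtain ⟨m, hm⟩ : ∃ m, d * d = m + 1 := ⟨d * d - 1, by
        have : 0 < d * d := Nat.mul_pos hd hd
        omega⟩
      rw [hm]
      exact he.pow_succ_eq m
    · intro σ _ hσ
      obtain ⟨k, hk⟩ : ∃ k, σ k ≠ k := by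
        by_contra h'
        push Not at h'
        exact hσ (Equiv.ext h')
      rw [List.prod_eq_zero, smul_zero]
      rw [List.mem_ofFn]
      exact ⟨k, by rw [hfac, if_neg hk]⟩
    · intro h'
      exact absurd (Finset.mem_univ _) h'
  rw [hcap] at h0
  have h1 : e o o = 0 := by rw [h0]; rfl
  simp [e] at h1

end Pool.Agent.H317R2.PI
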