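import Pool.Agent.H85R2.PIDefs

/-! Stable range one at the maximal ideals of the centre. -/

set_option autoImplicit false

namespace Pool.Agent.H317R2.PI

open Matrix Polynomial Pool.Agent.H85R2.PI

/-- linear algebra over a division ring -/
theorem la {Δ V : Type*} [DivisionRing Δ] [AddCommGroup V] [Module Δ V] [Module.Finite Δ V]
    (a u : V →ₗ[Δ] V) : ∃ z : V →ₗ[Δ] V, ∀ x : V, a x + z (x - u (a x)) = 0 → x = 0 := by
  obtain ⟨Q, hQ⟩ := Submodule.exists_isCompl (LinearMap.range a)
  obtain ⟨K', hK'⟩ := Submodule.exists_isCompl (LinearMap.ker a)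
  have h1 := LinearMap.finrank_range_add_finrank_ker a
  have h2 := Submodule.finrank_add_eq_of_isCompl hQ
  have h3 : Module.finrank Δ (LinearMap.ker a) = Module.finrank Δ Q := by omega
  let e := LinearEquiv.ofFinrankEq (LinearMap.ker a) Q h3
  let z : V →ₗ[Δ] V := Q.subtype ∘ₗ e.toLinearMap ∘ₗ (Submodule.projectionOnto _ _ hK')
  refine ⟨z, fun x hx => ?_⟩
  have h4 : a x = 0 := by
    have hz : z (x - u (a x)) ∈ Q := Subtype.prop _
    have ha : a x ∈ Q := by
      have : a x = - z (x - u (a x)) := eq_neg_of_add_eq_zero_left hx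
      rw [this]; exact Q.neg_mem hz
    exact Submodule.disjoint_def.1 hQ.disjoint _ (LinearMap.mem_range_self a x) ha
  rw [h4, map_zero, sub_zero, zero_add] at hx
  have h5 : x ∈ LinearMap.ker a := h4
  have h6 : e (Submodule.projectionOnto _ _ hK' x) = 0 := Subtype.ext hx
  rw [e.map_eq_zero_iff] at h6
  have h7 := Submodule.projectionOnto_apply_left hK' ⟨x, h5⟩
  rw [h6] at h7
  exact (congrArg Subtype.val h7).symm

section dens

variable {T : Type*} [Ring T] {q : ℕ} (M : Fin q → Type*) [∀ i, AddCommGroup (M i)]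
  [∀ i, Module T (M i)]

/-- density for finitely many pairwise non-isomorphic simple modules -/
theorem dens [∀ i, IsSimpleModule T (M i)]
    (hfin : ∀ i, Module.Finite (Module.End T (M i)) (M i))
    (hni : ∀ i j, i ≠ j → IsEmpty (M i ≃ₗ[T] M j))
    (z : ∀ i, M i →ₗ[Module.End T (M i)] M i) : ∃ t : T, ∀ i (x : M i), t • x = z i x := by
  classical
  -- diagonality
  have hdiag : ∀ (φ : Module.End T (∀ i, M i)) (x : ∀ i, M i) (i : Fin q),
      φ x i = φ (Pi.single i (x i)) i := by
    intro φ x i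
    have hx : x = ∑ j, Pi.single j (x j) := (Finset.univ_sum_single x).symm
    conv_lhs => rw [hx]
    rw [map_sum, Finset.sum_apply]
    rw [Finset.sum_eq_single i]
    · intro j _ hj
      let f : M j →ₗ[T] M i := LinearMap.proj i ∘ₗ φ ∘ₗ LinearMap.single T M j
      have hf : f = 0 := by
        rcases f.bijective_or_eq_zero with h | h
        · exact ((hni j i hj).false (LinearEquiv.ofBijective f h)).elim
        · exact h
      exact LinearMap.congr_fun hf (x j)
    · intro h; exact absurd (Finset.mem_univ _) h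
  let f : Module.End (Module.End T (∀ i, M i)) (∀ i, M i) :=
    { toFun := fun x i => z i (x i)
      map_add' := fun x y => by funext i; simp only [Pi.add_apply, map_add]
      map_smul' := fun φ x => by
        funext i
        simp only [RingHom.id_apply]
        change z i (φ x i) = φ (fun i => z i (x i)) i
        rw [hdiag φ x i, hdiag φ (fun i => z i (x i)) i]
        let g : Module.End T (M i) := LinearMap.proj i ∘ₗ φ ∘ₗ LinearMap.single T M i
        exact (z i).map_smul g (x i) }
  have hs : ∀ i, ∃ s : Finset (M i), Submodule.span (Module.End T (M i)) (s : Set (M i)) = ⊤ :=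
    fun i => (hfin i).fg_top
  choose s hs using hs
  obtain ⟨t, ht⟩ := jacobson_density f
    (Finset.univ.biUnion fun i => (s i).image (fun x => (Pi.single i x : ∀ i, M i)))
  refine ⟨t, fun i x => ?_⟩
  have hx : x ∈ Submodule.span (Module.End T (M i)) (s i : Set (M i)) := by rw [hs i]; trivial
  induction hx using Submodule.span_induction with
  | mem x hx =>
    have h1 := ht (Pi.single i x) (by
      rw [Finset.mem_biUnion]
      exact ⟨i, Finset.mem_univ i, Finset.mem_image_of_mem _ hx⟩)
    have h2 := congrFun h1 i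
    have h3 : (f (Pi.single i x)) i = z i x := by
      change z i ((Pi.single i x : ∀ i, M i) i) = z i x
      rw [Pi.single_eq_same]
    rw [h3, Pi.smul_apply, Pi.single_eq_same] at h2
    exact h2.symm
  | zero => rw [smul_zero, map_zero]
  | add x y _ _ h1 h2 => rw [smul_add, map_add, h1, h2]
  | smul g x _ h1 =>
    rw [map_smul, ← h1]
    change t • (g x) = g (t • x)
    rw [map_smul]

end dens

section bound

variable {Γ T : Type*} [CommRing Γ] [Ring T] [Algebra Γ T]

/-- the left ideals considered -/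
def SS (m : Ideal Γ) (L : Submodule T T) : Prop :=
  IsCoatom L ∧ ∀ γ ∈ m, ∀ t : T, γ • t ∈ L

theorem kill_iff (m : Ideal Γ) (hm : m.IsMaximal) (L : Submodule T T) (hL : SS m L) (γ : Γ) :
    (∀ x : T ⧸ L, algebraMap Γ T γ • x = 0) ↔ γ ∈ m := by
  let I : Ideal Γ :=
    { carrier := {γ | ∀ x : T ⧸ L, algebraMap Γ T γ • x = 0}
      add_mem' := fun {a b} ha hb x => by rw [map_add, add_smul, ha x, hb x, add_zero]
      zero_mem' := fun x => by rw [map_zero, zero_smul]
      smul_mem' := fun a b hb x => by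
        rw [smul_eq_mul, map_mul, mul_smul, hb x, smul_zero] }
  have h1 : m ≤ I := by
    intro γ hγ x
    obtain ⟨t, rfl⟩ := Submodule.mkQ_surjective L x
    rw [Submodule.mkQ_apply, ← Submodule.Quotient.mk_smul, Submodule.Quotient.mk_eq_zero,
      smul_eq_mul, ← Algebra.smul_def]
    exact hL.2 γ hγ t
  have h2 : I ≠ ⊤ := by
    intro h
    have h3 : (1 : Γ) ∈ I := by rw [h]; trivial
    have h4 := h3 (Submodule.Quotient.mk 1)
    rw [map_one, one_smul, Submodule.Quotient.mk_eq_zero] at h4
    apply hL.1.1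
    rw [Submodule.eq_top_iff']
    intro x
    have := L.smul_mem x h4
    rwa [smul_eq_mul, mul_one] at this
  have h3 : I = m := (hm.eq_of_le h2 h1).symm
  constructor
  · intro h
    rw [← h3]; exact h
  · intro h
    exact h1 h

theorem bound (m : Ideal Γ) (hm : m.IsMaximal) (N : ℕ)
    (hN : ∀ τ : T[X], ∃ f : Γ[X][X], f.Monic ∧ f.natDegree ≤ N ∧
      f.eval₂ (mapRingHom (algebraMap Γ T)) τ = 0)
    (hfin : ∀ L : Submodule T T, IsCoatom L → Module.Finite (Module.End T (T ⧸ L)) (T ⧸ L))
    (q : ℕ) (L : Fin q → Submodule T T) (hL : ∀ i, SS m (L i))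
    (hni : ∀ i j, i ≠ j → IsEmpty ((T ⧸ L i) ≃ₗ[T] (T ⧸ L j))) : q ≤ N := by
  classical
  have hs : ∀ i, IsSimpleModule T (T ⧸ L i) := fun i => isSimpleModule_iff_isCoatom.2 (hL i).1
  have hex : ∀ j : Fin q, ∃ t : T, ∀ l (x : T ⧸ L l),
      t • x = (if l = j then LinearMap.id else 0 :
        (T ⧸ L l) →ₗ[Module.End T (T ⧸ L l)] (T ⧸ L l)) x := fun j =>
    dens (fun i => T ⧸ L i) (fun i => hfin _ (hL i).1) hni _
  choose t ht using hex
  obtain ⟨f, hf1, hf2, hf3⟩ := hN (∑ j : Fin q, C (t j) * X ^ ((j : ℕ) + 1))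
  have key : ∀ j : Fin q, (f.map (mapRingHom (Ideal.Quotient.mk m))).eval
      (X ^ ((j : ℕ) + 1)) = 0 := by
    intro j
    let ρ : T →+* AddMonoid.End (T ⧸ L j) := Module.toAddMonoidEnd T (T ⧸ L j)
    have hτ : mapRingHom ρ (∑ j : Fin q, C (t j) * X ^ ((j : ℕ) + 1)) = X ^ ((j : ℕ) + 1) := by
      rw [map_sum, Finset.sum_eq_single j]
      · rw [map_mul, map_pow, coe_mapRingHom, map_C, map_X]
        have : ρ (t j) = 1 := by
          apply AddMonoidHom.ext
          intro x
          change t j • x = x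
          rw [ht j j x, if_pos rfl]; rfl
        rw [this, C_1, one_mul]
      · intro l _ hl
        rw [map_mul, map_pow, coe_mapRingHom, map_C, map_X]
        have : ρ (t l) = 0 := by
          apply AddMonoidHom.ext
          intro x
          change t l • x = 0
          rw [ht l j x, if_neg (fun h => hl h.symm)]; rfl
        rw [this, C_0, zero_mul]
      · intro h; exact absurd (Finset.mem_univ _) h
    have h1 := congrArg (mapRingHom ρ) hf3
    rw [hom_eval₂, hτ, map_zero] at h1
    let σ : Γ →+* AddMonoid.End (T ⧸ L j) := ρ.comp (algebraMap Γ T)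
    have h2 : mapRingHom σ (f.eval (X ^ ((j : ℕ) + 1))) = 0 := by
      have h3 : mapRingHom σ (f.eval₂ (RingHom.id _) (X ^ ((j : ℕ) + 1))) =
          f.eval₂ ((mapRingHom σ).comp (RingHom.id _)) (mapRingHom σ (X ^ ((j : ℕ) + 1))) :=
        hom_eval₂ _ _ _ _
      have h4 : mapRingHom σ (X ^ ((j : ℕ) + 1)) = X ^ ((j : ℕ) + 1) := by
        rw [map_pow, coe_mapRingHom, map_X]
      have h5 : (mapRingHom ρ).comp (mapRingHom (algebraMap Γ T)) =
          (mapRingHom σ).comp (RingHom.id _) := by
        rw [RingHom.comp_id]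
        exact mapRingHom_comp _ _
      rw [eval, h3, h4, ← h5]
      exact h1
    have h6 : (X ^ ((j : ℕ) + 1) : (Γ ⧸ m)[X]) =
        mapRingHom (Ideal.Quotient.mk m) (X ^ ((j : ℕ) + 1)) := by
      rw [map_pow, coe_mapRingHom, map_X]
    rw [eval_map, h6, eval₂_hom]
    ext n
    rw [coe_mapRingHom, coeff_map, coeff_zero, Ideal.Quotient.eq_zero_iff_mem,
      ← kill_iff m hm (L j) (hL j)]
    intro x
    have h7 := congrArg (fun p : (AddMonoid.End (T ⧸ L j))[X] => p.coeff n) h2
    simp only [coe_mapRingHom, coeff_map, coeff_zero] at h7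
    exact DFunLike.congr_fun h7 x
  have hdom : IsDomain (Γ ⧸ m) := (Ideal.Quotient.isDomain_iff_prime m).2 hm.isPrime
  have hmon : (f.map (mapRingHom (Ideal.Quotient.mk m))).Monic := hf1.map _
  have hinj : Function.Injective (fun j : Fin q => (X ^ ((j : ℕ) + 1) : (Γ ⧸ m)[X])) := by
    intro j l h
    have h1 := congrArg natDegree h
    simp only [natDegree_X_pow] at h1
    exact Fin.ext (by omega)
  have h1 := card_le_degree_of_subset_roots (p := f.map (mapRingHom (Ideal.Quotient.mk m)))
    (Z := Finset.univ.image (fun j : Fin q => (X ^ ((j : ℕ) + 1) : (Γ ⧸ m)[X]))) (by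
      intro r hr
      rw [Finset.mem_val, Finset.mem_image] at hr
      obtain ⟨j, -, rfl⟩ := hr
      rw [mem_roots hmon.ne_zero]
      exact key j)
  rw [Finset.card_image_of_injective _ hinj, Finset.card_univ, Fintype.card_fin] at h1
  exact (h1.trans (natDegree_map_le)).trans hf2

/-- `m T` as a left ideal -/
def mT (T : Type*) {Γ : Type*} [CommRing Γ] [Ring T] [Algebra Γ T] (m : Ideal Γ) :
    Submodule T T where
  carrier := (m • (⊤ : Submodule Γ T) : Submodule Γ T)
  add_mem' := fun ha hb => Submodule.add_mem _ ha hb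
  zero_mem' := Submodule.zero_mem _
  smul_mem' := by
    intro t x hx
    have hx' : x ∈ (m • (⊤ : Submodule Γ T) : Submodule Γ T) := hx
    show t • x ∈ (m • (⊤ : Submodule Γ T) : Submodule Γ T)
    refine Submodule.smul_induction_on hx' (fun r hr n _ => ?_) (fun x y h1 h2 => ?_)
    · rw [smul_eq_mul, mul_smul_comm]
      exact Submodule.smul_mem_smul hr trivial
    · rw [smul_add]
      exact Submodule.add_mem _ h1 h2

theorem mem_mT {m : Ideal Γ} {x : T} :
    x ∈ mT T m ↔ x ∈ (m • (⊤ : Submodule Γ T) : Submodule Γ T) := Iff.rfl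

theorem srg_aux (D : ℕ) (c : Equiv.Perm (Fin D) → ℤ)
    (hfin : ∀ L : Submodule T T, IsCoatom L → Module.Finite (Module.End T (T ⧸ L)) (T ⧸ L))
    (h : Good Γ T D c) : SRG Γ T := by
  classical
  intro m hm a u
  obtain ⟨N, hN⟩ := h.b2
  -- a maximal family
  let P : ℕ → Prop := fun q => ∃ L : Fin q → Submodule T T, (∀ i, SS m (L i)) ∧
    ∀ i j, i ≠ j → IsEmpty ((T ⧸ L i) ≃ₗ[T] (T ⧸ L j))
  have hP0 : P 0 := ⟨fun i => i.elim0, fun i => i.elim0, fun i => i.elim0⟩
  have hPN : ¬ P (N + 1) := by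
    rintro ⟨L, h1, h2⟩
    have := bound m hm N hN hfin (N + 1) L h1 h2
    omega
  obtain ⟨q, hq, hq1⟩ : ∃ q, P q ∧ ¬ P (q + 1) := by
    by_contra hcon
    push Not at hcon
    have : ∀ q, P q := fun q => Nat.rec hP0 (fun n ih => hcon n ih) q
    exact hPN (this _)
  obtain ⟨L, hL, hni⟩ := hq
  have hall : ∀ L' : Submodule T T, SS m L' → ∃ i, Nonempty ((T ⧸ L') ≃ₗ[T] (T ⧸ L i)) := by
    intro L' hL'
    by_contra hcon
    push Not at hcon
    apply hq1
    refine ⟨Fin.cons L' L, ?_, ?_⟩
    · intro i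
      refine Fin.cases ?_ (fun i => ?_) i
      · exact hL'
      · exact hL i
    · intro i j
      refine Fin.cases (Fin.cases ?_ (fun j => ?_) j) (fun i => Fin.cases ?_ (fun j => ?_) j) i
      · intro h; exact absurd rfl h
      · intro _
        exact hcon j
      · intro _
        exact ⟨fun e => (hcon i).false e.symm⟩
      · intro hij
        exact hni i j (fun h => hij (by rw [h]))
  have hs : ∀ i, IsSimpleModule T (T ⧸ L i) := fun i => isSimpleModule_iff_isCoatom.2 (hL i).1
  have hz : ∀ i, ∃ z : (T ⧸ L i) →ₗ[Module.End T (T ⧸ L i)] (T ⧸ L i),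
      ∀ x : T ⧸ L i, a • x + z (x - u • (a • x)) = 0 → x = 0 := by
    intro i
    have hf := hfin _ (hL i).1
    let _ : DivisionRing (Module.End T (T ⧸ L i)) := Module.End.instDivisionRing
    exact la (Module.toModuleEnd (Module.End T (T ⧸ L i)) (S := T) (T ⧸ L i) a)
      (Module.toModuleEnd (Module.End T (T ⧸ L i)) (S := T) (T ⧸ L i) u)
  choose z hz using hz
  obtain ⟨t, ht⟩ := dens (fun i => T ⧸ L i) (fun i => hfin _ (hL i).1) hni z
  refine ⟨t, ?_⟩
  set b : T := a + t * (1 - u * a) with hb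
  have hinj : ∀ i (x : T ⧸ L i), b • x = 0 → x = 0 := by
    intro i x hx
    apply hz i x
    rw [← ht, ← hx, hb, add_smul, mul_smul, sub_smul, one_smul, mul_smul]
  have hinj' : ∀ L' : Submodule T T, SS m L' → ∀ x : T ⧸ L', b • x = 0 → x = 0 := by
    intro L' hL' x hx
    obtain ⟨i, ⟨e⟩⟩ := hall L' hL'
    have h1 : b • e x = 0 := by rw [← map_smul, hx, map_zero]
    have h2 := hinj i (e x) h1
    rwa [e.map_eq_zero_iff] at h2
  have htop : Ideal.span {b} ⊔ mT T m = ⊤ := by
    by_contra hne
    obtain ⟨L', hL', hle⟩ := Ideal.exists_le_maximal _ hne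
    have hSS : SS m L' := ⟨hL'.out, fun γ hγ t => by
      apply hle
      apply Submodule.mem_sup_right
      rw [mem_mT]
      exact Submodule.smul_mem_smul hγ trivial⟩
    have hbL : b ∈ L' := hle (Submodule.mem_sup_left (Ideal.subset_span rfl))
    have h1 : b • (Submodule.Quotient.mk (1 : T) : T ⧸ L') = 0 := by
      rw [← Submodule.Quotient.mk_smul, Submodule.Quotient.mk_eq_zero, smul_eq_mul, mul_one]
      exact hbL
    have h2 := hinj' L' hSS _ h1
    rw [Submodule.Quotient.mk_eq_zero] at h2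
    exact hL'.ne_top ((Ideal.eq_top_iff_one _).2 h2)
  have h1 : (1 : T) ∈ Ideal.span {b} ⊔ mT T m := by rw [htop]; trivial
  obtain ⟨x, hx, y, hy, hxy⟩ := Submodule.mem_sup.1 h1
  obtain ⟨b', rfl⟩ := Ideal.mem_span_singleton'.1 hx
  apply h.b1 m hm b b'
  have h2 : b' * b - 1 = -y := by rw [← hxy]; abel
  rw [h2]
  exact Submodule.neg_mem _ hy

end bound

end Pool.Agent.H317R2.PI
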