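import Pool.Agent.H317R2.PI.SR
import Pool.Agent.H992R2.KapIndep

/-! Stable range one at the maximal ideals of the centre: final form. -/

set_option autoImplicit false

namespace Pool.Agent.H317R2.PI

open Matrix Polynomial Pool.Agent.H85R2.PI

theorem finite_of_no_indep {Δ M : Type*} [DivisionRing Δ] [AddCommGroup M] [Module Δ M] (D : ℕ)
    (h : ∀ v : Fin (D + 1) → M, ¬ LinearIndependent Δ v) : Module.Finite Δ M := by
  have hfin : Finite (Module.Basis.ofVectorSpaceIndex Δ M) := by
    by_contra hinf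
    rw [not_finite_iff_infinite] at hinf
    let e : ℕ ↪ Module.Basis.ofVectorSpaceIndex Δ M := Infinite.natEmbedding _
    have h1 := (Module.Basis.ofVectorSpace Δ M).linearIndependent.comp
      (fun i : Fin (D + 1) => e i) (fun i j hij => Fin.ext (e.injective hij))
    exact h _ h1
  exact Module.Finite.of_basis (Module.Basis.ofVectorSpace Δ M)

theorem fin_End {T : Type*} [Ring T] (D : ℕ) (c : Equiv.Perm (Fin D) → ℤ) (hc : c 1 = 1)
    (hT : PId T D c) (L : Submodule T T) (hL : IsCoatom L) :
    Module.Finite (Module.End T (T ⧸ L)) (T ⧸ L) := by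
  classical
  have hs : IsSimpleModule T (T ⧸ L) := isSimpleModule_iff_isCoatom.2 hL
  let _ : DivisionRing (Module.End T (T ⧸ L)) := Module.End.instDivisionRing
  refine finite_of_no_indep D fun v hv => ?_
  refine Pool.Agent.H992R2.Kap.no_indep (A := T) (M := T ⧸ L) (Δ := Module.End T (T ⧸ L))
    (fun f s => ?_) D c hc hT v hv
  obtain ⟨r, hr⟩ := jacobson_density f s
  exact ⟨r, fun m hm => (hr m hm).symm⟩

/-- SR -/
theorem SRG_of_Good {Γ T : Type*} [CommRing Γ] [Ring T] [Algebra Γ T]
    (D : ℕ) (c : Equiv.Perm (Fin D) → ℤ) (hc : c 1 = 1) (h : Good Γ T D c) : SRG Γ T :=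
  srg_aux D c (fin_End D c hc h.pid) h

end Pool.Agent.H317R2.PI
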